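import Mathlib

/-!
# Bounded extensions of the associated functionals of a minimal sequence
-/

open Filter Topology NormedSpace

namespace Pool.Agent.Results.MP_b3b95b_an.BoundedExtensions

variable {𝕜 E : Type*} [RCLike 𝕜] [NormedAddCommGroup E] [NormedSpace 𝕜 E]

/-- The closed linear span of a sequence. -/
def clSpan (𝕜 : Type*) {E : Type*} [RCLike 𝕜] [NormedAddCommGroup E] [NormedSpace 𝕜 E]
    (x : ℕ → E) : Submodule 𝕜 E :=
  (Submodule.span 𝕜 (Set.range x)).topologicalClosure

theorem mem_clSpan (x : ℕ → E) (n : ℕ) : x n ∈ clSpan 𝕜 x :=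
  Submodule.le_topologicalClosure _ (Submodule.subset_span ⟨n, rfl⟩)

/-- A sequence `x` is strictly bounded minimal, with associated functionals `φ`, if `φ i` is a
bounded functional on the closed linear span of `x` with `φ i (x j) = δ_ij`, and the norms of all
`x n` and all `φ n` are bounded. -/
structure StrictlyBoundedMinimal (x : ℕ → E) (φ : ℕ → StrongDual 𝕜 (clSpan 𝕜 x)) : Prop where
  biorth : ∀ i j, φ i ⟨x j, mem_clSpan x j⟩ = if i = j then 1 else 0
  bdd : ∃ C, ∀ n, ‖x n‖ ≤ C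
  bdd_dual : ∃ C, ∀ n, ‖φ n‖ ≤ C

/-- Coordinate functionals of a finite linearly independent family extend to the whole space. -/
theorem exists_dual {ι : Type*} [Finite ι] [DecidableEq ι] {Q : Type*} [NormedAddCommGroup Q]
    [NormedSpace 𝕜 Q] (v : ι → Q) (hv : LinearIndependent 𝕜 v) (i : ι) :
    ∃ h : StrongDual 𝕜 Q, ∀ j, h (v j) = if i = j then 1 else 0 := by
  classical
  let b := Module.Basis.span hv
  have : FiniteDimensional 𝕜 (Submodule.span 𝕜 (Set.range v)) := b.finiteDimensional_of_finite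
  let g : StrongDual 𝕜 (Submodule.span 𝕜 (Set.range v)) := LinearMap.toContinuousLinearMap (b.coord i)
  obtain ⟨h, hh, -⟩ := exists_extension_norm_eq _ g
  refine ⟨h, fun j => ?_⟩
  have h1 : ((b j : Submodule.span 𝕜 (Set.range v)) : Q) = v j := by
    simp [b, Module.Basis.span_apply]
  rw [← h1, hh]
  simp [g, Finsupp.single_apply, eq_comm]

/-- Functionals which tend to zero on `X` are asymptotically, on finitely many vectors, equal to
functionals which vanish on `X`. -/
theorem approx (X : Submodule 𝕜 E) (f0 : ℕ → StrongDual 𝕜 E) (C : ℝ) (hC : ∀ n, ‖f0 n‖ ≤ C)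
    (h0 : ∀ x ∈ X, Tendsto (fun n => f0 n x) atTop (𝓝 0)) {ι : Type*} [Finite ι] (e : ι → E)
    (ε : ℝ) (hε : 0 < ε) :
    ∀ᶠ n in atTop, ∃ g : StrongDual 𝕜 E, (∀ x ∈ X, g x = 0) ∧ ‖g‖ ≤ C ∧
      ∀ i, ‖g (e i) - f0 n (e i)‖ < ε := by
  by_contra hcon
  rw [Filter.not_eventually, Filter.frequently_iff_neBot] at hcon
  let U := @Ultrafilter.of _ _ hcon
  have hU : (U : Filter ℕ) ≤ atTop ⊓ 𝓟 {n | ¬ ∃ g : StrongDual 𝕜 E, (∀ x ∈ X, g x = 0) ∧ ‖g‖ ≤ C ∧
      ∀ i, ‖g (e i) - f0 n (e i)‖ < ε} := @Ultrafilter.of_le _ _ hcon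
  let F : ℕ → WeakDual 𝕜 E := fun n => StrongDual.toWeakDual (f0 n)
  have hK := WeakDual.isCompact_closedBall (𝕜 := 𝕜) (E := E) (0 : StrongDual 𝕜 E) C
  have hmem : (U.map F : Filter (WeakDual 𝕜 E)) ≤
      𝓟 (WeakDual.toStrongDual ⁻¹' Metric.closedBall (0 : StrongDual 𝕜 E) C) := by
    rw [le_principal_iff]
    refine Filter.mem_map.2 (Filter.univ_mem' fun n => ?_)
    change WeakDual.toStrongDual (F n) ∈ Metric.closedBall (0 : StrongDual 𝕜 E) C
    rw [mem_closedBall_zero_iff]
    exact hC n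
  obtain ⟨f, hf, hlim⟩ := hK.ultrafilter_le_nhds (U.map F) hmem
  have hev : ∀ x : E, Tendsto (fun n => f0 n x) U (𝓝 (WeakDual.toStrongDual f x)) := by
    intro x
    have h1 : Tendsto F U (𝓝 f) := hlim
    exact ((WeakDual.eval_continuous x).tendsto f).comp h1
  have hUt : (U : Filter ℕ) ≤ atTop := hU.trans inf_le_left
  have hbad : ∀ᶠ n in (U : Filter ℕ), ¬ ∃ g : StrongDual 𝕜 E, (∀ x ∈ X, g x = 0) ∧ ‖g‖ ≤ C ∧
      ∀ i, ‖g (e i) - f0 n (e i)‖ < ε := by
    have := hU.trans inf_le_right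
    exact le_principal_iff.1 this
  have hgood : ∀ᶠ n in (U : Filter ℕ), ∀ i, ‖WeakDual.toStrongDual f (e i) - f0 n (e i)‖ < ε := by
    rw [Filter.eventually_all]
    intro i
    have h2 := (tendsto_const_nhds (x := WeakDual.toStrongDual f (e i))).sub (hev (e i))
    rw [sub_self] at h2
    have h3 := h2.norm
    rw [norm_zero] at h3
    exact h3.eventually_lt_const hε
  obtain ⟨n, hn1, hn2⟩ := (hbad.and hgood).exists
  refine hn1 ⟨WeakDual.toStrongDual f, fun x hx => ?_, ?_, hn2⟩
  · exact tendsto_nhds_unique (hev x) ((h0 x hx).mono_left hUt)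
  · simpa [mem_closedBall_zero_iff] using hf

/-- The functionals `f0 n` can be corrected by functionals `q n` of norm at most `C + ε` which
vanish on `X`, such that every element of a set `S` with `X + span S` dense is annihilated by all but
finitely many of the corrected functionals. -/
theorem core [TopologicalSpace.SeparableSpace E] (X : Submodule 𝕜 E) (hXc : IsClosed (X : Set E))
    (f0 : ℕ → StrongDual 𝕜 E) (C : ℝ) (hC : ∀ n, ‖f0 n‖ ≤ C)
    (h0 : ∀ x ∈ X, Tendsto (fun n => f0 n x) atTop (𝓝 0)) (ε : ℝ) (hε : 0 < ε) :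
    ∃ q : ℕ → StrongDual 𝕜 E, (∀ n, ∀ x ∈ X, q n x = 0) ∧ (∀ n, ‖q n‖ ≤ C + ε) ∧
      ∃ S : Set E, (∀ e ∈ S, ∀ᶠ n in atTop, q n e = - f0 n e) ∧
        Dense ((X ⊔ Submodule.span 𝕜 S : Submodule 𝕜 E) : Set E) := by
  classical
  have hC0 : 0 ≤ C := (norm_nonneg _).trans (hC 0)
  have : IsClosed (X : Set E) := hXc
  let d := TopologicalSpace.denseSeq E
  let t : Set (E ⧸ X) := Set.range (fun n => X.mkQ (d n))
  obtain ⟨b, hbt, hbs, hbl⟩ := exists_linearIndependent 𝕜 t
  have hbc : b.Countable := (Set.countable_range _).mono hbt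
  let _ : Encodable b := hbc.toEncodable
  have hsurj : ∀ i : b, ∃ e : E, X.mkQ e = (i : E ⧸ X) := fun i => X.mkQ_surjective _
  choose e he using hsurj
  let P : ℕ → ℕ → Prop := fun n k => ∃ q : StrongDual 𝕜 E, (∀ x ∈ X, q x = 0) ∧ ‖q‖ ≤ C + ε ∧
    ∀ i : b, Encodable.encode i < k → q (e i) = - f0 n (e i)
  have hP0 : ∀ n, P n 0 := fun n => ⟨0, fun _ _ => rfl, by simp; positivity, fun i hi => by omega⟩
  have hPk : ∀ k, ∀ᶠ n in atTop, P n k := by
    intro k
    let ι := {i : b // Encodable.encode i < k}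
    have : Finite ι := by
      refine Finite.of_injective (fun i : ι => (⟨Encodable.encode i.1, i.2⟩ : Fin k)) ?_
      intro i j hij
      have h1 : Encodable.encode i.1 = Encodable.encode j.1 := congrArg Fin.val hij
      exact Subtype.ext (Encodable.encode_injective h1)
    have : Fintype ι := Fintype.ofFinite ι
    have hv : LinearIndependent 𝕜 (fun i : ι => ((i.1 : b) : E ⧸ X)) :=
      hbl.comp (fun i : ι => i.1) (fun i j hij => Subtype.ext hij)
    choose h hh using exists_dual _ hv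
    let M : ℝ := ∑ i, ‖h i‖
    have hM : 0 ≤ M := Finset.sum_nonneg fun _ _ => norm_nonneg _
    have hδ : 0 < ε / (M + 1) := by positivity
    filter_upwards [approx X f0 C hC h0 (fun i : ι => e i.1) _ hδ] with n hn
    obtain ⟨g, hg0, hgC, hg⟩ := hn
    refine ⟨-g + ∑ i, (g (e i.1) - f0 n (e i.1)) • (h i).comp X.mkQL, ?_, ?_, ?_⟩
    · intro x hx
      have hx0 : (Submodule.Quotient.mk x : E ⧸ X) = 0 := (Submodule.Quotient.mk_eq_zero X).2 hx
      simp [hg0 x hx, hx0]
    · have h1 : ∀ i : ι, ‖(h i).comp X.mkQL‖ ≤ ‖h i‖ := by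
        intro i
        refine ContinuousLinearMap.opNorm_le_bound _ (norm_nonneg _) fun x => ?_
        calc ‖(h i).comp X.mkQL x‖ = ‖h i (X.mkQ x)‖ := by simp
          _ ≤ ‖h i‖ * ‖X.mkQ x‖ := (h i).le_opNorm _
          _ ≤ ‖h i‖ * ‖x‖ := by
            gcongr
            exact Submodule.Quotient.norm_mk_le X x
      calc ‖-g + ∑ i, (g (e i.1) - f0 n (e i.1)) • (h i).comp X.mkQL‖
          ≤ ‖-g‖ + ‖∑ i, (g (e i.1) - f0 n (e i.1)) • (h i).comp X.mkQL‖ := norm_add_le _ _
        _ ≤ C + ∑ i, (ε / (M + 1)) * ‖h i‖ := by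
          rw [norm_neg]
          gcongr
          refine (norm_sum_le _ _).trans (Finset.sum_le_sum fun i _ => ?_)
          rw [norm_smul]
          exact mul_le_mul (hg i).le (h1 i) (norm_nonneg _) hδ.le
        _ = C + ε / (M + 1) * M := by rw [Finset.mul_sum]
        _ ≤ C + ε := by
          have : ε / (M + 1) * M ≤ ε := by
            rw [div_mul_eq_mul_div, div_le_iff₀ (by positivity)]
            nlinarith
          linarith
    · intro i hi
      have h2 : ∀ j : ι, (h j) (X.mkQ (e i)) = if j = ⟨i, hi⟩ then 1 else 0 := by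
        intro j
        rw [he i]
        exact hh j ⟨i, hi⟩
      have h3 : (-g + ∑ j : ι, (g (e j.1) - f0 n (e j.1)) • (h j).comp X.mkQL) (e i) =
          -g (e i) + ∑ j : ι, (g (e j.1) - f0 n (e j.1)) * (h j) (X.mkQ (e i)) := by
        simp
      rw [h3, Finset.sum_eq_single (⟨i, hi⟩ : ι)]
      · rw [h2, if_pos rfl]
        ring
      · intro j _ hj
        rw [h2, if_neg hj, mul_zero]
      · intro hj
        exact absurd (Finset.mem_univ _) hj
  let k : ℕ → ℕ := fun n => Nat.findGreatest (P n) n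
  have hk : ∀ n, P n (k n) := fun n => Nat.findGreatest_spec (P := P n) (Nat.zero_le n) (hP0 n)
  choose q hq0 hqC hqe using hk
  refine ⟨q, hq0, hqC, Set.range e, ?_, ?_⟩
  · rintro _ ⟨i, rfl⟩
    filter_upwards [hPk (Encodable.encode i + 1), eventually_ge_atTop (Encodable.encode i + 1)]
      with n hn1 hn2
    exact hqe n i (Nat.lt_of_succ_le (Nat.le_findGreatest hn2 hn1))
  · have hd : DenseRange d := TopologicalSpace.denseRange_denseSeq E
    refine Dense.mono ?_ hd
    rintro _ ⟨n, rfl⟩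
    have h1 : X.mkQ (d n) ∈ Submodule.span 𝕜 b := by
      rw [hbs]
      exact Submodule.subset_span ⟨n, rfl⟩
    have h2 : Submodule.span 𝕜 b ≤ (X ⊔ Submodule.span 𝕜 (Set.range e)).map X.mkQ := by
      rw [Submodule.span_le]
      intro i hi
      refine ⟨e ⟨i, hi⟩, ?_, he ⟨i, hi⟩⟩
      exact Submodule.mem_sup_right (Submodule.subset_span ⟨_, rfl⟩)
    obtain ⟨w, hw, hw2⟩ := h2 h1
    have h3 : d n - w ∈ X := by
      rw [← Submodule.ker_mkQ X, LinearMap.mem_ker, map_sub, hw2, sub_self]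
    have h4 : d n = (d n - w) + w := by abel
    rw [h4]
    exact Submodule.add_mem _ (Submodule.mem_sup_left h3) hw

/-- Let `x` be a strictly bounded minimal sequence in a separable Banach space `E`, with associated
functionals `φ n` of norm at most `C`. For every `ε > 0` there are functionals `f n` on `E`, of norm
at most `2 C + ε`, which extend the `φ n`, such that the sum of the closed linear span of `x` and of
the joint kernel of the `f n` is dense in `E`. -/
theorem result [CompleteSpace E] [TopologicalSpace.SeparableSpace E] (x : ℕ → E)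
    (φ : ℕ → StrongDual 𝕜 (clSpan 𝕜 x)) (h : StrictlyBoundedMinimal x φ) (C : ℝ)
    (hC : ∀ n, ‖φ n‖ ≤ C) (ε : ℝ) (hε : 0 < ε) :
    ∃ f : ℕ → StrongDual 𝕜 E, (∀ n (y : clSpan 𝕜 x), f n y = φ n y) ∧
      (∀ n, ‖f n‖ ≤ 2 * C + ε) ∧
      Dense {w : E | ∃ y ∈ clSpan 𝕜 x, ∃ z : E, (∀ n, f n z = 0) ∧ w = y + z} := by
  classical
  have hXc : IsClosed ((clSpan 𝕜 x : Submodule 𝕜 E) : Set E) :=
    Submodule.isClosed_topologicalClosure _
  have hC0 : 0 ≤ C := (norm_nonneg _).trans (hC 0)
  -- norm preserving extensions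
  have hext : ∀ n, ∃ g : StrongDual 𝕜 E, (∀ y : clSpan 𝕜 x, g y = φ n y) ∧ ‖g‖ = ‖φ n‖ :=
    fun n => exists_extension_norm_eq _ (φ n)
  choose f0 hf0 hf0n using hext
  have hf0C : ∀ n, ‖f0 n‖ ≤ C := fun n => (hf0n n).le.trans (hC n)
  have hf0x : ∀ i j, f0 i (x j) = if i = j then 1 else 0 := fun i j => by
    rw [← h.biorth i j, ← hf0 i ⟨x j, mem_clSpan x j⟩]
  -- `f0 n` tends to zero on the closed span of `x`
  have h0 : ∀ y ∈ clSpan 𝕜 x, Tendsto (fun n => f0 n y) atTop (𝓝 0) := by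
    intro y hy
    rw [Metric.tendsto_atTop]
    intro δ hδ
    have hy' : y ∈ closure ((Submodule.span 𝕜 (Set.range x) : Submodule 𝕜 E) : Set E) := hy
    obtain ⟨y', hy', hd⟩ := Metric.mem_closure_iff.1 hy' (δ / (C + 1)) (by positivity)
    have hN : ∀ᶠ n in atTop, f0 n y' = 0 := by
      have hle : Submodule.span 𝕜 (Set.range x) ≤
          { carrier := {z : E | ∀ᶠ n in atTop, f0 n z = 0}
            add_mem' := fun {a b} ha hb => by
              filter_upwards [ha, hb] with n h1 h2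
              rw [map_add, h1, h2, add_zero]
            zero_mem' := Filter.Eventually.of_forall fun n => map_zero _
            smul_mem' := fun c a ha => by
              filter_upwards [ha] with n h1
              rw [map_smul, h1, smul_zero] : Submodule 𝕜 E } := by
        rw [Submodule.span_le]
        rintro _ ⟨j, rfl⟩
        filter_upwards [eventually_ge_atTop (j + 1)] with n hn
        rw [hf0x, if_neg (by omega)]
      exact hle hy'
    obtain ⟨N, hN⟩ := eventually_atTop.1 hN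
    refine ⟨N, fun n hn => ?_⟩
    have h1 : f0 n y = f0 n (y - y') := by rw [map_sub, hN n hn, sub_zero]
    rw [dist_zero_right, h1]
    calc ‖f0 n (y - y')‖ ≤ ‖f0 n‖ * ‖y - y'‖ := (f0 n).le_opNorm _
      _ ≤ C * ‖y - y'‖ := by gcongr; exact hf0C n
      _ ≤ (C + 1) * ‖y - y'‖ := by gcongr; linarith
      _ < δ := by
        rw [dist_eq_norm] at hd
        rw [lt_div_iff₀ (by positivity)] at hd
        linarith
  obtain ⟨q, hq0, hqC, S, hS, hSd⟩ := core (clSpan 𝕜 x) hXc f0 C hf0C h0 ε hε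
  refine ⟨fun n => f0 n + q n, ?_, ?_, ?_⟩
  · intro n y
    simp [hf0 n y, hq0 n y y.2]
  · intro n
    calc ‖f0 n + q n‖ ≤ ‖f0 n‖ + ‖q n‖ := norm_add_le _ _
      _ ≤ C + (C + ε) := add_le_add (hf0C n) (hqC n)
      _ = 2 * C + ε := by ring
  · have hx : ∀ i j, (f0 i + q i) (x j) = if i = j then 1 else 0 := by
      intro i j
      simp [hf0x, hq0 i _ (mem_clSpan x j)]
    let W : Submodule 𝕜 E := clSpan 𝕜 x ⊔ ⨅ n, LinearMap.ker ((f0 n + q n : StrongDual 𝕜 E) : E →ₗ[𝕜] 𝕜)
    have hW : (W : Set E) ⊆ {w : E | ∃ y ∈ clSpan 𝕜 x, ∃ z : E, (∀ n, (f0 n + q n) z = 0) ∧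
        w = y + z} := by
      intro w hw
      obtain ⟨y, hy, z, hz, rfl⟩ := Submodule.mem_sup.1 hw
      exact ⟨y, hy, z, fun n => by simpa using (Submodule.mem_iInf _).1 hz n, rfl⟩
    refine Dense.mono hW (Dense.mono ?_ hSd)
    have hle : clSpan 𝕜 x ⊔ Submodule.span 𝕜 S ≤ W := by
      refine sup_le le_sup_left ?_
      rw [Submodule.span_le]
      intro e he
      obtain ⟨N, hN⟩ := eventually_atTop.1 (hS e he)
      let y : E := ∑ n ∈ Finset.range N, (f0 n + q n) e • x n
      have hy : y ∈ clSpan 𝕜 x := Submodule.sum_mem _ fun n _ =>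
        Submodule.smul_mem _ _ (mem_clSpan x n)
      have hz : e - y ∈ ⨅ n, LinearMap.ker ((f0 n + q n : StrongDual 𝕜 E) : E →ₗ[𝕜] 𝕜) := by
        rw [Submodule.mem_iInf]
        intro m
        rw [LinearMap.mem_ker]
        change (f0 m + q m) (e - y) = 0
        rw [map_sub, map_sum]
        simp only [map_smul, hx, smul_eq_mul, mul_ite, mul_one, mul_zero]
        rw [Finset.sum_ite_eq]
        by_cases hm : m ∈ Finset.range N
        · rw [if_pos hm, sub_self]
        · rw [if_neg hm, sub_zero]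
          have : N ≤ m := by simpa using hm
          have h2 := hN m this
          change f0 m e + q m e = 0
          rw [h2, add_neg_cancel]
      have h4 : e = y + (e - y) := by abel
      rw [SetLike.mem_coe, h4]
      exact Submodule.add_mem _ (Submodule.mem_sup_left hy) (Submodule.mem_sup_right hz)
    exact hle

end Pool.Agent.Results.MP_b3b95b_an.BoundedExtensions
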